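import Pool.Agent.Lib.MP_50bb2e_nt.MT.Iface

/-!
Module CEX: facts on the conductor exponent of a quadratic character.
-/

open NumberField IsDedekindDomain Filter Topology

namespace Pool.Agent.Lib.MP_50bb2e_nt.MT.H9

namespace CexM

variable {F : Type} [Field F] [NumberField F]

lemma val_ne (v : Pr F) (d : Fˣ) : v.valuation F (d : F) ≠ 0 :=
  (Valuation.ne_zero_iff _).2 d.ne_zero

omit [NumberField F] in
lemma cls_mul_sq (d t : Fˣ) : cls (d * t ^ 2) = cls d := by
  refine QuotientGroup.eq.2 ⟨t⁻¹, ?_⟩
  simp only [powMonoidHom_apply]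
  group

/-- Every integer is the order of a unit. -/
lemma exists_exp (v : Pr F) (k : ℤ) : ∃ p : Fˣ, v.valuation F (p : F) = WithZero.exp k := by
  obtain ⟨p, hp⟩ := v.valuation_exists_uniformizer F
  have hp0 : p ≠ 0 := by
    rintro rfl
    rw [map_zero] at hp
    exact WithZero.coe_ne_zero hp.symm
  refine ⟨(Units.mk0 p hp0) ^ (-k), ?_⟩
  rw [Units.val_zpow_eq_zpow_val, map_zpow₀]
  change (v.valuation F p) ^ (-k) = _
  rw [hp, ← WithZero.exp_zsmul]
  simp

/-- A representative whose order is any prescribed integer of the right parity. -/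
lemma exists_rep (v : Pr F) (d : Fˣ) (n : ℤ)
    (h : Even (WithZero.log (v.valuation F (d : F)) - n)) :
    ∃ D : Fˣ, cls D = cls d ∧ v.valuation F (D : F) = WithZero.exp n := by
  obtain ⟨k, hk⟩ := h
  obtain ⟨p, hp⟩ := exists_exp v (-k)
  refine ⟨d * p ^ 2, cls_mul_sq d p, ?_⟩
  have hd : v.valuation F (d : F) = WithZero.exp (n + (k + k)) := by
    rw [← hk, add_sub_cancel, WithZero.exp_log (val_ne v d)]
  rw [Units.val_mul, Units.val_pow_eq_pow_val, map_mul, map_pow, hp, hd, pow_two,
    ← WithZero.exp_add, ← WithZero.exp_add]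
  congr 1
  ring

/-- Upper bound of the exponent. -/
lemma condExp_le (v : Pr F) (D : Fˣ) (n : ℕ) (h : v.valuation F (D : F) = WithZero.exp (-(n : ℤ)))
    (h4 : v.valuation F (D : F) ≤ v.valuation F 4) : condExp v (cls D) ≤ n := by
  refine Nat.sInf_le ⟨D, 0, rfl, h, ?_, ?_⟩
  · rw [map_zero]
    exact zero_le_one
  · simpa using h4

/-- the order of `4` is a natural number -/
lemma exists_four (v : Pr F) : ∃ m : ℕ, v.valuation F 4 = WithZero.exp (-(m : ℤ)) := by
  have h0 : v.valuation F (4 : F) ≠ 0 := by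
    rw [Valuation.ne_zero_iff]
    norm_num
  have h1 : v.valuation F (4 : F) ≤ 1 := by
    have h : v.valuation F (algebraMap (𝓞 F) F 4) ≤ 1 := v.valuation_le_one (4 : 𝓞 F)
    rwa [map_ofNat] at h
  have h2 : WithZero.log (v.valuation F (4 : F)) ≤ 0 := by
    rw [← WithZero.exp_log h0, ← WithZero.exp_zero, WithZero.exp_le_exp] at h1
    exact h1
  refine ⟨(-WithZero.log (v.valuation F (4 : F))).toNat, ?_⟩
  rw [Int.toNat_of_nonneg (by omega), neg_neg, WithZero.exp_log h0]

/-- The field is dense in the completion. -/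
lemma exists_close (v : Pr F) (x : v.adicCompletion F) (g : F) (hg : g ≠ 0) :
    ∃ s : F, Valued.v (algebraMap F (v.adicCompletion F) s - x) < v.valuation F g := by
  have hg' : Valued.v (algebraMap F (v.adicCompletion F) g) = v.valuation F g :=
    v.valuedAdicCompletion_eq_valuation' (K := F) g
  have hne : (Valued.v : Valuation (v.adicCompletion F) _).restrict
      (algebraMap F (v.adicCompletion F) g) ≠ 0 := by
    rw [Valuation.ne_zero_iff]
    exact fun h => hg ((map_eq_zero (algebraMap F (v.adicCompletion F))).1 h)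
  have hn : {y : v.adicCompletion F | (Valued.v : Valuation (v.adicCompletion F) _).restrict
      (y - x) < (Valued.v : Valuation (v.adicCompletion F) _).restrict
      (algebraMap F (v.adicCompletion F) g)} ∈ 𝓝 x := by
    rw [Valued.mem_nhds]
    exact ⟨Units.mk0 _ hne, fun y hy => hy⟩
  obtain ⟨s, hs⟩ := (v.denseRange_algebraMap (K := F)).exists_mem_open isOpen_interior
    ⟨x, mem_interior_iff_mem_nhds.2 hn⟩
  refine ⟨s, ?_⟩
  rw [← hg']
  have hs' := interior_subset hs
  exact (Valuation.restrict_lt_iff _).1 hs'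

end CexM

open CexM in
/-- CEX. -/
theorem cex (h : OrdS) : CexS := by
  intro F _ _
  obtain ⟨o1, -, -, -⟩ := h F
  have c5 : ∀ (v : Pr F) (q : Quad F), TrivAt (Sum.inl v) q →
      ∃ D : Fˣ, cls D = q ∧ v.valuation F (D : F) = 1 ∧
        v.valuation F ((D : F) - 1 ^ 2) ≤ v.valuation F 4 := by
    rintro v q ⟨d, rfl, t, ht⟩
    obtain ⟨m, hm⟩ := exists_four v
    have ht0 : t ≠ 0 := by
      rintro rfl
      rw [mul_zero] at ht
      exact d.ne_zero ((map_eq_zero (algebraMap F (v.adicCompletion F))).1 ht)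
    have hvt : Valued.v t ≠ 0 := (Valuation.ne_zero_iff _).2 ht0
    obtain ⟨g, hg⟩ := exists_exp v (-(m : ℤ) - WithZero.log (Valued.v t))
    obtain ⟨s, hs⟩ := exists_close v t⁻¹ (g : F) g.ne_zero
    have hu : Valued.v (algebraMap F (v.adicCompletion F) s * t - 1) < v.valuation F 4 := by
      have h1 : algebraMap F (v.adicCompletion F) s * t - 1 =
          (algebraMap F (v.adicCompletion F) s - t⁻¹) * t := by
        rw [sub_mul, inv_mul_cancel₀ ht0]
      have h2 : v.valuation F 4 = v.valuation F (g : F) * Valued.v t := by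
        have h3 : Valued.v t = WithZero.exp (WithZero.log (Valued.v t)) :=
          (WithZero.exp_log hvt).symm
        rw [hg, hm]
        refine Eq.trans ?_ (congrArg (fun z => WithZero.exp
          (-(m : ℤ) - WithZero.log (Valued.v t)) * z) h3.symm)
        rw [← WithZero.exp_add]
        congr 1
        ring
      rw [h1, h2, map_mul]
      exact (mul_lt_mul_iff_left₀ (zero_lt_iff.2 hvt)).2 hs
    have h41 : v.valuation F (4 : F) ≤ 1 := by
      rw [hm, ← WithZero.exp_zero, WithZero.exp_le_exp]
      omega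
    have hu1 : Valued.v (algebraMap F (v.adicCompletion F) s * t) = 1 := by
      have h3 := Valuation.map_eq_of_sub_lt (Valued.v : Valuation (v.adicCompletion F) _)
        (x := (1 : v.adicCompletion F)) (y := algebraMap F (v.adicCompletion F) s * t)
        (by rw [map_one]; exact hu.trans_le h41)
      rw [h3, map_one]
    have hs0 : s ≠ 0 := by
      rintro rfl
      rw [map_zero, zero_mul, map_zero] at hu1
      exact zero_ne_one hu1
    have hD : algebraMap F (v.adicCompletion F) ((d * (Units.mk0 s hs0) ^ 2 : Fˣ) : F) =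
        (algebraMap F (v.adicCompletion F) s * t) ^ 2 := by
      rw [Units.val_mul, Units.val_pow_eq_pow_val, Units.val_mk0, map_mul, map_pow, ht]
      ring
    refine ⟨d * (Units.mk0 s hs0) ^ 2, cls_mul_sq _ _, ?_, ?_⟩
    · have h5 := v.valuedAdicCompletion_eq_valuation' (K := F)
        ((d * (Units.mk0 s hs0) ^ 2 : Fˣ) : F)
      refine h5.symm.trans ?_
      refine (congrArg _ hD).trans ?_
      rw [map_pow, hu1, one_pow]
    · have h5 := v.valuedAdicCompletion_eq_valuation' (K := F)
        (((d * (Units.mk0 s hs0) ^ 2 : Fˣ) : F) - 1 ^ 2)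
      refine h5.symm.trans_le ?_
      have h6 : algebraMap F (v.adicCompletion F)
          (((d * (Units.mk0 s hs0) ^ 2 : Fˣ) : F) - 1 ^ 2) =
          (algebraMap F (v.adicCompletion F) s * t - 1) *
          (algebraMap F (v.adicCompletion F) s * t + 1) := by
        rw [map_sub, hD, map_pow, map_one]
        ring
      refine (congrArg _ h6).trans_le ?_
      rw [map_mul]
      have h7 : Valued.v (algebraMap F (v.adicCompletion F) s * t + 1) ≤ 1 := by
        refine (Valuation.map_add _ _ _).trans ?_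
        rw [hu1, map_one, max_self]
      calc _ ≤ v.valuation F 4 * 1 := mul_le_mul' hu.le h7
        _ = v.valuation F 4 := mul_one _
  refine ⟨?_, ?_, ?_, ?_, ?_⟩
  · let e : Fˣ := Units.mk0 (2 : F) (by norm_num)
    refine ((HeightOneSpectrum.Support.finite (𝓞 F) (e : F)).union
      (HeightOneSpectrum.Support.finite (𝓞 F) ((e⁻¹ : Fˣ) : F))).subset ?_
    intro v hv
    by_contra hcon
    rw [Set.mem_union, not_or] at hcon
    have h2 : v.valuation F (e : F) ≤ 1 := not_lt.1 hcon.1
    have h3 : v.valuation F ((e⁻¹ : Fˣ) : F) ≤ 1 := not_lt.1 hcon.2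
    refine hv (le_antisymm h2 ?_)
    rw [Units.val_inv_eq_inv_val, map_inv₀] at h3
    exact (inv_le_one₀ (zero_lt_iff.2 (val_ne v e))).1 h3
  · intro v q hv
    obtain ⟨d, rfl⟩ := QuotientGroup.mk_surjective q
    change (OddAt v (cls d) → condExp v (cls d) = 1) ∧ (¬ OddAt v (cls d) → condExp v (cls d) = 0)
    have h4 : v.valuation F 4 = 1 := by
      have : (4 : F) = 2 * 2 := by norm_num
      rw [this, map_mul, hv, mul_one]
    constructor
    · intro hodd
      obtain ⟨D, hD, hD1⟩ := exists_rep v d (-1) (by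
        have := (o1 v d).1 hodd
        rw [sub_neg_eq_add]
        exact this.add_odd odd_one)
      have hle : condExp v (cls D) ≤ 1 := by
        refine condExp_le v D 1 (by simpa using hD1) ?_
        rw [h4, hD1, ← WithZero.exp_zero, WithZero.exp_le_exp]
        norm_num
      rw [← hD]
      refine le_antisymm hle (Nat.one_le_iff_ne_zero.2 fun h0 => ?_)
      rcases Nat.sInf_eq_zero.1 h0 with h5 | h5
      · obtain ⟨D', a, hD', hv', -, -⟩ := h5
        have h6 : OddAt v (cls D') := by rw [hD', hD]; exact hodd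
        rw [o1, hv', WithZero.log_exp] at h6
        exact absurd h6 (by decide)
      · have : (1 : ℕ) ∈ {n : ℕ | ∃ (D' : Fˣ) (a : F), cls D' = cls D ∧
            v.valuation F (D' : F) = WithZero.exp (-(n : ℤ)) ∧ v.valuation F a ≤ 1 ∧
            v.valuation F ((D' : F) - a ^ 2) ≤ v.valuation F 4} := by
          refine ⟨D, 0, rfl, by simpa using hD1, by rw [map_zero]; exact zero_le_one, ?_⟩
          rw [h4, zero_pow two_ne_zero, sub_zero, hD1, ← WithZero.exp_zero, WithZero.exp_le_exp]
          norm_num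
        rw [h5] at this
        exact this
    · intro hodd
      obtain ⟨D, hD, hD1⟩ := exists_rep v d 0 (by
        rw [o1, Int.not_odd_iff_even] at hodd
        simpa using hodd)
      rw [← hD]
      refine Nat.le_zero.1 (condExp_le v D 0 (by simpa using hD1) ?_)
      rw [h4, hD1, WithZero.exp_zero]
  · intro v
    obtain ⟨m, hm⟩ := exists_four v
    refine ⟨m + 1, fun q => ?_⟩
    obtain ⟨d, rfl⟩ := QuotientGroup.mk_surjective q
    change condExp v (cls d) ≤ m + 1
    rcases Int.even_or_odd (WithZero.log (v.valuation F (d : F)) - (-(m : ℤ))) with he | ho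
    · obtain ⟨D, hD, hD1⟩ := exists_rep v d (-(m : ℤ)) he
      rw [← hD]
      exact (condExp_le v D m hD1 (by rw [hD1, hm])).trans (Nat.le_succ m)
    · obtain ⟨D, hD, hD1⟩ := exists_rep v d (-((m + 1 : ℕ) : ℤ)) (by
        have h7 : WithZero.log (v.valuation F (d : F)) - (-((m + 1 : ℕ) : ℤ)) =
            WithZero.log (v.valuation F (d : F)) - (-(m : ℤ)) + 1 := by
          push_cast
          ring
        rw [h7]
        exact ho.add_odd odd_one)
      rw [← hD]
      refine condExp_le v D (m + 1) hD1 ?_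
      rw [hD1, hm, WithZero.exp_le_exp]
      push_cast
      linarith
  · intro v q hq
    obtain ⟨D, rfl, hD1, hD2⟩ := c5 v q hq
    refine Nat.le_zero.1 (Nat.sInf_le ⟨D, 1, rfl, ?_, ?_, hD2⟩)
    · rw [hD1]
      simp
    · rw [map_one]
  · intro v q hq hodd
    obtain ⟨D, rfl, hD1, -⟩ := c5 v q hq
    rw [o1, hD1, WithZero.log_one] at hodd
    exact absurd hodd (by decide)

end Pool.Agent.Lib.MP_50bb2e_nt.MT.H9
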