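import Pool.Agent.Lib.MP_50bb2e_nt.MT.H57.Twr

/-!
Module FAM: finite families of twists.
-/

open NumberField IsDedekindDomain Filter Topology

namespace Pool.Agent.Lib.MP_50bb2e_nt.MT.H9

/-- FAM. -/
theorem fam (h : DenS) : FamS := by
  intro F _ _ o r
  obtain ⟨d1, d2, d3⟩ := h F
  constructor
  · intro hD Psi hPsi
    have hE : ¬ PosUpper {q : Quad F | o q < r}ᶜ := (d1 _).1 hD
    rw [d1]
    have key : ∀ s : Set (Quad F), s.Finite → ¬ PosUpper {q : Quad F | ∃ psi ∈ s, r ≤ o (q * psi)} := by
      intro s hs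
      induction s, hs using Set.Finite.induction_on with
      | empty =>
        rintro ⟨c, hc, hf⟩
        obtain ⟨Y, hY, hY0⟩ := (hf.and_eventually (eventually_gt_atTop (0 : ℝ))).exists
        have h3 : count {q : Quad F | ∃ psi ∈ (∅ : Set (Quad F)), r ≤ o (q * psi)} Y = 0 := by
          simp [count]
        rw [h3] at hY
        have : 0 < c * Y := mul_pos hc hY0
        simp only [Nat.cast_zero] at hY
        linarith
      | @insert a s ha hs ih =>
        intro hp
        have h4 : PosUpper ({q : Quad F | q * a ∈ {q : Quad F | o q < r}ᶜ} ∪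
            {q : Quad F | ∃ psi ∈ s, r ≤ o (q * psi)}) := by
          refine H57.posUpper_mono h ?_ hp
          rintro q ⟨psi, hpsi, hq⟩
          rcases hpsi with rfl | hpsi
          · exact Or.inl (not_lt.2 hq)
          · exact Or.inr ⟨psi, hpsi, hq⟩
        rcases d3 _ _ h4 with h5 | h5
        · exact hE (d2 _ _ h5)
        · exact ih h5
    refine fun hp => key Psi hPsi (H57.posUpper_mono h ?_ hp)
    intro q hq
    simp only [Set.mem_compl_iff, Set.mem_ofPred_eq, not_forall, not_lt] at hq
    obtain ⟨psi, hpsi, hq⟩ := hq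
    exact ⟨psi, hpsi, hq⟩
  · intro hall
    have h1 := hall {1} (Set.finite_singleton _)
    have h2 : {q : Quad F | ∀ psi ∈ ({1} : Set (Quad F)), o (q * psi) < r} = {q | o q < r} := by
      ext q
      have h3 : q * 1 = q := mul_one q
      simp [h3]
    rw [h2] at h1
    exact h1

end Pool.Agent.Lib.MP_50bb2e_nt.MT.H9
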